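import Mathlib
import Pool.Agent.P.MP_d05361_an.C.Fun

set_option autoImplicit false

namespace Pool.Agent.Results.MP_d05361_an.IndexOne

open scoped ENNReal

/-- The squared Bergman norm: the integral of `|f|^2` over the open unit disc with respect to
normalised area measure (Lebesgue measure divided by `π`). It may be infinite. -/
noncomputable def normSq (f : ℂ → ℂ) : ℝ≥0∞ :=
  (ENNReal.ofReal Real.pi)⁻¹ * ∫⁻ z in Metric.ball (0 : ℂ) 1, ‖f z‖ₑ ^ 2

/-- `f` lies in the Bergman space: holomorphic on the disc with finite norm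
(values outside the disc play no role). -/
def InBergman (f : ℂ → ℂ) : Prop :=
  DifferentiableOn ℂ f (Metric.ball 0 1) ∧ normSq f < ⊤

/-- `I` is a `z`-invariant subspace of the Bergman space: a linear subspace of Bergman functions,
closed for the Bergman norm, and mapped into itself by multiplication by `z`. -/
def IsInvariant (I : Submodule ℂ (ℂ → ℂ)) : Prop :=
  (∀ f ∈ I, InBergman f) ∧
  (∀ f, InBergman f → (∀ ε : ℝ≥0∞, 0 < ε → ∃ g ∈ I, normSq (f - g) < ε) → f ∈ I) ∧
  (∀ f ∈ I, (fun z => z * f z) ∈ I)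

/-- `H` is the extremal function of `I`: the unique (on the disc) maximiser of `Re f(0)` over the
`f` in `I` of norm at most one. -/
def IsExtremal (I : Submodule ℂ (ℂ → ℂ)) (H : ℂ → ℂ) : Prop :=
  H ∈ I ∧ normSq H ≤ 1 ∧ (∀ f ∈ I, normSq f ≤ 1 → (f 0).re ≤ (H 0).re) ∧
  (∀ f ∈ I, normSq f ≤ 1 → (f 0).re = (H 0).re → Set.EqOn f H (Metric.ball 0 1))

/-- Index one, for a subspace that contains a function not vanishing at `0`: every function of `J`
that vanishes at `0` lies in `z J`, so that `z J` has codimension one in `J`. -/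
def IndexOne (J : Submodule ℂ (ℂ → ℂ)) : Prop :=
  ∀ f ∈ J, f 0 = 0 → ∃ g ∈ J, ∀ z ∈ Metric.ball (0 : ℂ) 1, f z = z * g z

/-- Tested on polynomials, the implication of Question 2 holds below `J` exactly when `J` has
index one. -/
theorem result :
    ∀ J : Submodule ℂ (ℂ → ℂ), IsInvariant J → (∃ f ∈ J, f 0 ≠ 0) →
      (∃ HJ, IsExtremal J HJ) ∧ ∀ HJ, IsExtremal J HJ → List.TFAE [IndexOne J,
        ∀ I HI, IsInvariant I → I ≤ J → (∃ f ∈ I, f 0 ≠ 0) → IsExtremal I HI →
          ∀ h : Polynomial ℂ,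
            normSq (fun z => HJ z * h.eval z) ≤ normSq (fun z => HI z * h.eval z),
        ∀ I HI, IsInvariant I → IndexOne I → I ≤ J → (∃ f ∈ I, f 0 ≠ 0) → IsExtremal I HI →
          ∀ h : ℂ → ℂ, DifferentiableOn ℂ h (Metric.ball 0 1) → (fun z => HI z * h z) ∈ I →
            normSq (fun z => HJ z * h z) ≤ normSq (fun z => HI z * h z),
        ∀ I HI, IsInvariant I → IndexOne I → I ≤ J → (∃ f ∈ I, f 0 ≠ 0) → IsExtremal I HI →
          ∀ h : Polynomial ℂ,
            normSq (fun z => HJ z * h.eval z) ≤ normSq (fun z => HI z * h.eval z)] :=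
  Pool.Agent.P.MP_d05361_an.C.tfae

end Pool.Agent.Results.MP_d05361_an.IndexOne
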