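import Mathlib
import Pool.Agent.P.MP_d05361_an.Transfer

set_option autoImplicit false

namespace Pool.Agent.Results.MP_d05361_an.Q2False

open scoped ENNReal

/-- The squared Bergman norm: the integral of `|f|^2` over the open unit disc with respect to
normalised area measure (Lebesgue measure divided by `π`). It may be infinite. -/
noncomputable def normSq (f : ℂ → ℂ) : ℝ≥0∞ :=
  (ENNReal.ofReal Real.pi)⁻¹ * ∫⁻ z in Metric.ball (0 : ℂ) 1, ‖f z‖ₑ ^ 2

/-- `f` lies in the Bergman space: holomorphic on the disc with finite norm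
(values outside the disc play no role). -/
def InBergman (f : ℂ → ℂ) : Prop :=
  DifferentiableOn ℂ f (Metric.ball 0 1) ∧ normSq f < ⊤

/-- `I` is a `z`-invariant subspace of the Bergman space: a linear subspace of Bergman functions,
closed for the Bergman norm, and mapped into itself by multiplication by `z`. -/
def IsInvariant (I : Submodule ℂ (ℂ → ℂ)) : Prop :=
  (∀ f ∈ I, InBergman f) ∧
  (∀ f, InBergman f → (∀ ε : ℝ≥0∞, 0 < ε → ∃ g ∈ I, normSq (f - g) < ε) → f ∈ I) ∧
  (∀ f ∈ I, (fun z => z * f z) ∈ I)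

/-- `H` is the extremal function of `I`: the unique (on the disc) maximiser of `Re f(0)` over the
`f` in `I` of norm at most one. -/
def IsExtremal (I : Submodule ℂ (ℂ → ℂ)) (H : ℂ → ℂ) : Prop :=
  H ∈ I ∧ normSq H ≤ 1 ∧ (∀ f ∈ I, normSq f ≤ 1 → (f 0).re ≤ (H 0).re) ∧
  (∀ f ∈ I, normSq f ≤ 1 → (f 0).re = (H 0).re → Set.EqOn f H (Metric.ball 0 1))

/-- Question 2 has a negative answer: there are invariant subspaces `I ⊆ J`, with `I` containing a
function not vanishing at `0`, and a polynomial `h` with `‖H_I h‖ < ‖H_J h‖`. -/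
theorem result :
    ∃ (I J : Submodule ℂ (ℂ → ℂ)) (HI HJ : ℂ → ℂ) (h : Polynomial ℂ),
      IsInvariant I ∧ IsInvariant J ∧ I ≤ J ∧ (∃ f ∈ I, f 0 ≠ 0) ∧
      IsExtremal I HI ∧ IsExtremal J HJ ∧ InBergman (fun z => h.eval z) ∧
      normSq (fun z => HI z * h.eval z) < normSq (fun z => HJ z * h.eval z) :=
  Pool.Agent.P.MP_d05361_an.exists_counterexample

end Pool.Agent.Results.MP_d05361_an.Q2False
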